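import Pool.Agent.H29.RQ.Targets

set_option autoImplicit false

/-!
# MP_c65535_nt, dependence on the degree: row KEB of the board `rdq_modules`
-/

namespace Pool.Agent.H7.RQ

open Pool.Agent.H29.RQ Pool.Agent.H23.RDD Pool.Agent.H24.RD NumberField Height Finset Polynomial

section Lifts

variable {F E M : Type} [Field F] [Field E] [Field M] [Algebra F E] [Algebra F M] [Algebra E M]

/-- `σ` extends `t` -/
def Lf (t : E ≃ₐ[F] E) (σ : M ≃ₐ[F] M) : Prop :=
  ∀ y : E, σ (algebraMap E M y) = algebraMap E M (t y)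

theorem Lf.mul {t t' : E ≃ₐ[F] E} {σ σ' : M ≃ₐ[F] M} (h : Lf t σ) (h' : Lf t' σ') :
    Lf (t * t') (σ * σ') := by
  intro y
  rw [AlgEquiv.mul_apply, AlgEquiv.mul_apply, h' y, h]

theorem Lf.inv {t : E ≃ₐ[F] E} {σ : M ≃ₐ[F] M} (h : Lf t σ) : Lf t⁻¹ σ⁻¹ := by
  intro y
  have h1 := h (t⁻¹ y)
  rw [← AlgEquiv.mul_apply, mul_inv_cancel, AlgEquiv.one_apply] at h1
  rw [← h1, ← AlgEquiv.mul_apply, inv_mul_cancel, AlgEquiv.one_apply]

theorem Lf.one_fix {σ : M ≃ₐ[F] M} (h : Lf (1 : E ≃ₐ[F] E) σ) (y : E) :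
    σ (algebraMap E M y) = algebraMap E M y := h y

theorem Lf.one : Lf (1 : E ≃ₐ[F] E) (1 : M ≃ₐ[F] M) := fun _ => rfl

variable [FiniteDimensional F M]

open Classical in
/-- the images of `b` under the extensions of `t` -/
noncomputable def Orb (b : M) (t : E ≃ₐ[F] E) : Finset M :=
  (Finset.univ.filter (fun σ : M ≃ₐ[F] M => Lf t σ)).image (fun σ => σ b)

theorem mem_Orb (b : M) (t : E ≃ₐ[F] E) (x : M) :
    x ∈ Orb b t ↔ ∃ σ : M ≃ₐ[F] M, Lf t σ ∧ σ b = x := by
  classical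
  simp only [Orb, Finset.mem_image, Finset.mem_filter, Finset.mem_univ, true_and]

open Classical in
theorem Orb_mul (b : M) {t w : E ≃ₐ[F] E} {σ : M ≃ₐ[F] M} (h : Lf w σ) :
    Orb b (w * t) = (Orb b t).image (fun x => σ x) := by
  ext x
  rw [mem_Orb, Finset.mem_image]
  constructor
  · rintro ⟨τ, hτ, rfl⟩
    refine ⟨(σ⁻¹ * τ) b, (mem_Orb _ _ _).2 ⟨σ⁻¹ * τ, ?_, rfl⟩, ?_⟩
    · have := h.inv.mul hτ
      rwa [inv_mul_cancel_left] at this
    · rw [← AlgEquiv.mul_apply, mul_inv_cancel_left]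
  · rintro ⟨y, hy, rfl⟩
    obtain ⟨τ, hτ, rfl⟩ := (mem_Orb _ _ _).1 hy
    exact ⟨σ * τ, h.mul hτ, rfl⟩

variable [IsScalarTower F E M] [FiniteDimensional F E] [IsGalois F E] [IsGalois F M]

theorem exists_lift (t : E ≃ₐ[F] E) : ∃ σ : M ≃ₐ[F] M, Lf t σ :=
  ⟨t.liftNormal M, fun y => t.liftNormal_commutes M y⟩

open Classical in
theorem prod_Orb_map (b : M) {t w : E ≃ₐ[F] E} {σ : M ≃ₐ[F] M} (h : Lf w σ) :
    (∏ x ∈ Orb b t, (X - C x)).map (σ : M →+* M) = ∏ x ∈ Orb b (w * t), (X - C x) := by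
  rw [Orb_mul b h, Finset.prod_image (fun x _ y _ hxy => σ.injective hxy), Polynomial.map_prod]
  refine Finset.prod_congr rfl fun x _ => ?_
  rw [Polynomial.map_sub, Polynomial.map_X, Polynomial.map_C]
  rfl

/-- the polynomial over `E` with the roots `Orb b 1` -/
theorem exists_poly (b : M) : ∃ f : E[X],
    f.map (algebraMap E M) = ∏ x ∈ Orb b (1 : E ≃ₐ[F] E), (X - C x) := by
  have : IsGalois E M := IsGalois.tower_top_of_isGalois F E M
  have : FiniteDimensional E M := FiniteDimensional.right F E M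
  rw [← Polynomial.mem_lifts, Polynomial.lifts_iff_coeff_lifts]
  intro n
  rw [IsGalois.mem_range_algebraMap_iff_fixed]
  intro τ
  have h : Lf (1 : E ≃ₐ[F] E) (τ.restrictScalars F) := fun y => τ.commutes y
  have h1 := prod_Orb_map b (t := 1) h
  rw [mul_one] at h1
  conv_rhs => rw [← h1]
  rw [Polynomial.coeff_map]
  rfl

/-- the images of this polynomial -/
theorem map_poly (b : M) {f : E[X]}
    (hf : f.map (algebraMap E M) = ∏ x ∈ Orb b (1 : E ≃ₐ[F] E), (X - C x)) (t : E ≃ₐ[F] E) :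
    (f.map (t : E →+* E)).map (algebraMap E M) = ∏ x ∈ Orb b t, (X - C x) := by
  obtain ⟨σ, hσ⟩ := exists_lift (M := M) t
  have h1 := prod_Orb_map b (t := 1) hσ
  rw [mul_one] at h1
  rw [← h1, ← hf, Polynomial.map_map, Polynomial.map_map]
  congr 1
  ext y
  exact (hσ y).symm

/-- the number of conjugates -/
theorem card_Orb (b : M) (t : E ≃ₐ[F] E) : (Orb b t).card ≤ (Orb b (1 : E ≃ₐ[F] E)).card := by
  classical
  obtain ⟨σ, hσ⟩ := exists_lift (M := M) t
  have h := Orb_mul b (t := 1) hσ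
  rw [mul_one] at h
  rw [h]
  exact Finset.card_image_le

end Lifts

theorem dch_nonneg {M : Type} [Field M] (v : AbsoluteValue M ℝ) (x y : M) : 0 ≤ dch v x y := by
  unfold dch
  have := v.nonneg (x - y)
  positivity

theorem dch_le_one {M : Type} [Field M] (v : AbsoluteValue M ℝ) (hv : IsNonarchimedean v)
    (x y : M) : dch v x y ≤ 1 := by
  unfold dch
  rw [div_le_one (by positivity)]
  have h1 : v (x - y) ≤ max (v x) (v y) := by
    have := hv x (-y)
    rwa [v.map_neg, ← sub_eq_add_neg] at this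
  refine h1.trans (max_le ?_ ?_)
  · calc v x ≤ max (v x) 1 := le_max_left _ _
      _ = max (v x) 1 * 1 := (mul_one _).symm
      _ ≤ max (v x) 1 * max (v y) 1 :=
        mul_le_mul_of_nonneg_left (le_max_right _ _) (by positivity)
  · calc v y ≤ max (v y) 1 := le_max_left _ _
      _ = 1 * max (v y) 1 := (one_mul _).symm
      _ ≤ max (v x) 1 * max (v y) 1 :=
        mul_le_mul_of_nonneg_right (le_max_right _ _) (by positivity)

theorem pf_KEB (h1 : T_HA) (h2 : T_HB) (h3 : T_VB) (h4 : T_PFX) (h5 : T_PRX) (h6 : T_POWQ)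
    (h7 : T_ORB) : T_KEB := by
  classical
  intro F E M _ _ _ _ _ _ _ _ _ _ _ _ _ _ p hp V T d k hT hd hV hcomm hTq b g hb hg hs hred H hH
  set q := p ^ k with hq
  have hqpos : 0 < q := pow_pos hp.pos k
  -- the subgroup `B`
  let B : Subgroup (E ≃ₐ[F] E) :=
    { carrier := {w | w ∈ V ∧ ∃ σ : M ≃ₐ[F] M, Lf w σ ∧ (σ b) ^ q = b ^ q}
      mul_mem' := by
        rintro w w' ⟨hw, σ, hσ, h⟩ ⟨hw', σ', hσ', h'⟩
        refine ⟨V.mul_mem hw hw', σ * σ', hσ.mul hσ', ?_⟩
        rw [AlgEquiv.mul_apply, ← map_pow, h', map_pow, h]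
      one_mem' := ⟨V.one_mem, 1, Lf.one, rfl⟩
      inv_mem' := by
        rintro w ⟨hw, σ, hσ, h⟩
        refine ⟨V.inv_mem hw, σ⁻¹, hσ.inv, ?_⟩
        have h8 := congrArg (fun z => σ⁻¹ z) h
        simp only [map_pow] at h8
        rw [← AlgEquiv.mul_apply, inv_mul_cancel, AlgEquiv.one_apply] at h8
        exact h8.symm }
  have hBmem : ∀ w, w ∈ B ↔ w ∈ V ∧ ∃ σ : M ≃ₐ[F] M, Lf w σ ∧ (σ b) ^ q = b ^ q :=
    fun w => Iff.rfl
  have hBV : B ≤ V := fun w hw => hw.1
  refine ⟨B, hBV, fun w hw => hw.2, ?_⟩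
  intro P hP W hW
  -- powers
  have hpw : ∀ x y : M, (x * g) ^ q = (y * g) ^ q → x ^ q = y ^ q := by
    intro x y h
    rw [mul_pow, mul_pow] at h
    exact mul_right_cancel₀ (pow_ne_zero _ hg) h
  let Y : (E ≃ₐ[F] E) → Finset M := fun t => (Orb b t).image (fun x => (x * g) ^ q)
  have hYmem : ∀ t x, x ∈ Y t ↔ ∃ σ : M ≃ₐ[F] M, Lf t σ ∧ (σ b * g) ^ q = x := by
    intro t x
    simp only [Y, Finset.mem_image]
    constructor
    · rintro ⟨y, hy, rfl⟩
      obtain ⟨σ, hσ, rfl⟩ := (mem_Orb _ _ _).1 hy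
      exact ⟨σ, hσ, rfl⟩
    · rintro ⟨σ, hσ, rfl⟩
      exact ⟨σ b, (mem_Orb _ _ _).2 ⟨σ, hσ, rfl⟩, rfl⟩
  have hinj : ∀ t : E ≃ₐ[F] E, ∀ x ∈ Orb b t, ∀ y ∈ Orb b t,
      (x * g) ^ q = (y * g) ^ q → x = y := by
    intro t x hx y hy hxy
    obtain ⟨σ, hσ, rfl⟩ := (mem_Orb _ _ _).1 hx
    obtain ⟨σ', hσ', rfl⟩ := (mem_Orb _ _ _).1 hy
    have h8 := hpw _ _ hxy
    have h9 : Lf (1 : E ≃ₐ[F] E) (σ⁻¹ * σ') := by
      have := hσ.inv.mul hσ'
      rwa [inv_mul_cancel] at this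
    have h10 : ((σ⁻¹ * σ') b) ^ q = b ^ q := by
      rw [AlgEquiv.mul_apply, ← map_pow, ← h8, map_pow, ← AlgEquiv.mul_apply, inv_mul_cancel,
        AlgEquiv.one_apply]
    have h11 := hred (σ⁻¹ * σ') h9.one_fix h10
    have h12 := congrArg (fun z => σ z) h11
    simp only [← AlgEquiv.mul_apply, mul_inv_cancel_left] at h12
    exact h12.symm
  -- the finite set `X`
  let X : Finset M := (Finset.univ.filter (fun t : E ≃ₐ[F] E => t ∈ V)).biUnion Y
  have hX : ∀ x, x ∈ X ↔ ∃ t ∈ V, x ∈ Y t := by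
    intro x
    simp only [X, Finset.mem_biUnion, Finset.mem_filter, Finset.mem_univ, true_and]
  have hN1 : 1 ≤ X.card := by
    rw [Nat.one_le_iff_ne_zero, Finset.card_ne_zero]
    obtain ⟨σ, hσ⟩ := exists_lift (M := M) (1 : E ≃ₐ[F] E)
    exact ⟨(σ b * g) ^ q, (hX _).2 ⟨1, V.one_mem, (hYmem _ _).2 ⟨σ, hσ, rfl⟩⟩⟩
  have hN2 : X.card ≤ T * d := by
    obtain ⟨s, hsd, hsσ⟩ := hs
    refine (Finset.card_biUnion_le_card_mul _ _ d fun t _ => ?_).trans ?_
    · refine Finset.card_image_le.trans ((card_Orb b t).trans (le_trans ?_ hsd))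
      refine Finset.card_le_card fun x hx => ?_
      obtain ⟨σ, hσ, rfl⟩ := (mem_Orb _ _ _).1 hx
      exact hsσ σ hσ.one_fix
    · refine Nat.mul_le_mul_right d (le_trans (le_of_eq ?_) hV)
      rw [← Fintype.card_subtype, ← Nat.card_eq_fintype_card]
  have hgain : ∀ v ∈ P, ∏ x ∈ X, ∏ y ∈ X.erase x, dch v.1 x y ≤
      v.1 (p : M) ^ ((X.card : ℝ) * ((B.relIndex (W v) : ℝ) - 1)) := by
    intro v hv
    have hvp := (hP v).1 hv
    obtain ⟨hna, hv0, -⟩ := h3 M p hp v hvp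
    obtain ⟨hWV, hWt⟩ := hW v hv
    refine h7 (E ≃ₐ[F] E) V B (W v) hBV hWV hcomm M (fun x y => dch v.1 x y) (v.1 (p : M)) hv0
      hvp.le (fun x y => ⟨dch_nonneg v.1 x y, dch_le_one v.1 hna x y⟩) Y ?_ ?_ ?_ X hX
    · intro s hs' t ht hst
      obtain ⟨-, r, hr, hrb⟩ := (hBmem _).1 hst
      ext x
      rw [hYmem, hYmem]
      constructor
      · rintro ⟨σ, hσ, rfl⟩
        refine ⟨σ * r, ?_, ?_⟩
        · have := hσ.mul hr
          rwa [mul_inv_cancel_left] at this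
        · rw [mul_pow, mul_pow, AlgEquiv.mul_apply, ← map_pow, hrb, map_pow]
      · rintro ⟨σ, hσ, rfl⟩
        refine ⟨σ * r⁻¹, ?_, ?_⟩
        · have := hσ.mul hr.inv
          rwa [mul_inv_rev, inv_inv, mul_inv_cancel_left] at this
        · have h8 : (r⁻¹ b) ^ q = b ^ q := by
            have h9 := congrArg (fun z => r⁻¹ z) hrb
            simp only [map_pow] at h9
            rw [← AlgEquiv.mul_apply, inv_mul_cancel, AlgEquiv.one_apply] at h9
            exact h9.symm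
          rw [mul_pow, mul_pow, AlgEquiv.mul_apply, ← map_pow, h8, map_pow]
    · intro s hs' t ht hst
      rw [Finset.disjoint_left]
      intro x hx hx'
      obtain ⟨σ, hσ, rfl⟩ := (hYmem _ _).1 hx
      obtain ⟨σ', hσ', h8⟩ := (hYmem _ _).1 hx'
      refine hst ((hBmem _).2 ⟨V.mul_mem (V.inv_mem hs') ht, σ⁻¹ * σ', hσ.inv.mul hσ', ?_⟩)
      rw [AlgEquiv.mul_apply, ← map_pow, hpw _ _ h8, map_pow, ← AlgEquiv.mul_apply,
        inv_mul_cancel, AlgEquiv.one_apply]
    · intro t ht w hw _ x hx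
      obtain ⟨f, hf⟩ := exists_poly (F := F) (E := E) b
      have hT' : (0 : ℝ) < ((2 * T : ℕ) : ℝ) := by exact_mod_cast (by omega : 0 < 2 * T)
      set δ : ℝ := 1 / ((2 * T : ℕ) : ℝ) with hδ
      have hδ0 : 0 < δ := by positivity
      have hε0 : 0 < v.1 (p : M) ^ δ := Real.rpow_pos_of_pos hv0 δ
      have hε1 : v.1 (p : M) ^ δ < 1 := Real.rpow_lt_one hv0.le hvp hδ0
      have hco : ∀ n : ℕ, v.1 ((∏ y ∈ Orb b (w * t), (Polynomial.X - C y)).coeff n -
          (∏ x ∈ Orb b t, (Polynomial.X - C x)).coeff n) ≤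
          v.1 (p : M) ^ δ * v.1 ((∏ x ∈ Orb b t, (Polynomial.X - C x)).coeff n) := by
        intro n
        rw [← map_poly b hf (w * t), ← map_poly b hf t, Polynomial.coeff_map,
          Polynomial.coeff_map, Polynomial.coeff_map, Polynomial.coeff_map]
        change v.1 (algebraMap E M ((w * t) (f.coeff n)) - algebraMap E M (t (f.coeff n))) ≤
          v.1 (p : M) ^ δ * v.1 (algebraMap E M (t (f.coeff n)))
        rw [AlgEquiv.mul_apply]
        by_cases he : t (f.coeff n) = 0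
        · rw [he, map_zero, map_zero, sub_zero, map_zero, mul_zero]
        · have h8 := hWt w hw (t (f.coeff n)) he
          have h9 : algebraMap E M (w (t (f.coeff n))) - algebraMap E M (t (f.coeff n)) =
              algebraMap E M (w (t (f.coeff n)) / t (f.coeff n) - 1) *
                algebraMap E M (t (f.coeff n)) := by
            rw [← map_sub, ← map_mul]
            congr 1
            field_simp
          rw [h9, map_mul]
          exact mul_le_mul_of_nonneg_right h8 (v.1.nonneg _)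
      have h10 := h5 M v.1 hna _ hε0 hε1 (Orb b t) (Orb b (w * t)) hco g
      obtain ⟨x', hx', rfl⟩ := Finset.mem_image.1 hx
      have h11 := h10 x' hx'
      have h12 := h6 M v.1 hna p hp hvp δ k 0 hδ0 (by
        rw [hδ, mul_one_div, le_div_iff₀ hT', one_mul]
        exact_mod_cast hTq) (x' * g) ((Orb b (w * t)).image (fun y => y * g)) (by
          rw [Finset.prod_image (fun y _ z _ hyz => mul_right_cancel₀ hg hyz)]
          exact h11)
      rw [Finset.prod_image (fun y _ z _ hyz => mul_right_cancel₀ hg hyz), add_zero, zero_add,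
        pow_one] at h12
      change ∏ y ∈ (Orb b (w * t)).image (fun x => (x * g) ^ q), dch v.1 ((x' * g) ^ q) y ≤ _
      rw [Finset.prod_image fun x hx y hy => hinj (w * t) x hx y hy]
      exact h12
  obtain ⟨P', hP', -, hPX⟩ := h4 M p hp
  have hPP : P' = P := by
    ext v
    rw [hP' v, hP v]
  subst hPP
  have h8 := hPX X (fun v => (X.card : ℝ) * ((B.relIndex (W v) : ℝ) - 1)) hgain
  have hN0 : (0 : ℝ) < X.card := by exact_mod_cast hN1
  have hH0 : 0 ≤ H := (zero_le_logHeight₁ _).trans (hH 1)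
  have hsumX : ∑ x ∈ X, logHeight₁ x ≤ X.card * (q * H) := by
    rw [← nsmul_eq_mul]
    refine Finset.sum_le_card_nsmul _ _ _ fun x hx => ?_
    obtain ⟨t, -, hxt⟩ := (hX x).1 hx
    obtain ⟨σ, -, rfl⟩ := (hYmem _ _).1 hxt
    rw [logHeight₁_pow]
    exact mul_le_mul_of_nonneg_left (hH σ) (Nat.cast_nonneg _)
  set S : ℝ := ∑ v ∈ P', (- Real.log (v.1 (p : M))) * ((B.relIndex (W v) : ℝ) - 1) with hS
  have h9 : ∑ v ∈ P', (- Real.log (v.1 (p : M))) *
      ((X.card : ℝ) * ((B.relIndex (W v) : ℝ) - 1)) = X.card * S := by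
    rw [hS, Finset.mul_sum]
    exact Finset.sum_congr rfl fun v _ => by ring
  rw [h9] at h8
  have h10 : X.card * S ≤ X.card * (Module.finrank ℚ M * (2 * Real.log X.card) +
      2 * (X.card * (q * H))) := by
    calc X.card * S ≤ _ := h8
      _ ≤ Module.finrank ℚ M * (2 * X.card * Real.log X.card) +
          2 * X.card * (X.card * (q * H)) := by
        gcongr
      _ = _ := by ring
  have h11 := le_of_mul_le_mul_left h10 hN0
  have hN3 : (X.card : ℝ) ≤ d * T := by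
    have : X.card ≤ d * T := by rw [mul_comm]; exact hN2
    exact_mod_cast this
  refine h11.trans ?_
  have h12 : Real.log X.card ≤ Real.log (d * T) := Real.log_le_log hN0 hN3
  have h13 : (X.card : ℝ) * (q * H) ≤ (d * T) * (q * H) :=
    mul_le_mul_of_nonneg_right hN3 (by positivity)
  have h14 : (Module.finrank ℚ M : ℝ) * (2 * Real.log X.card) ≤
      Module.finrank ℚ M * (2 * Real.log (d * T)) := by gcongr
  have h15 : ((d : ℝ) * T) * (q * H) = (d * T * (p : ℝ) ^ k) * H := by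
    rw [hq]
    push_cast
    ring
  rw [h15] at h13
  linarith

end Pool.Agent.H7.RQ
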